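import Pool.Agent.Helper99.BQ.Basic

/-! MP_986e36_gt, blocks R1 and R2: geometry of the deformed 3-sphere. -/

open scoped Manifold ContDiff Quaternion ENNReal Topology
open Bundle Set Metric

noncomputable section

namespace Helper99.BQ

namespace R12

/-- `sin θ / θ` is decreasing. -/
theorem sin_cross {θ α : ℝ} (hα : 0 < α) (hαθ : α ≤ θ) (hθ : θ ≤ Real.pi) :
    α * Real.sin θ ≤ θ * Real.sin α := by
  have hθ0 : 0 < θ := hα.trans_le hαθ
  have hm1 : θ ∈ Icc (0 : ℝ) Real.pi := ⟨hθ0.le, hθ⟩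
  have hm2 : (0 : ℝ) ∈ Icc (0 : ℝ) Real.pi := ⟨le_rfl, Real.pi_pos.le⟩
  have hp1 : 0 ≤ α / θ := by positivity
  have hp2 : 0 ≤ 1 - α / θ := by rw [sub_nonneg, div_le_one hθ0]; exact hαθ
  have h := strictConcaveOn_sin_Icc.concaveOn.2 hm1 hm2 hp1 hp2 (by ring)
  simp only [smul_eq_mul, Real.sin_zero, mul_zero, add_zero] at h
  rw [div_mul_cancel₀ _ hθ0.ne', div_mul_eq_mul_div, div_le_iff₀ hθ0] at h
  linarith

/-- tangent inequality. -/
theorem tangent {θ α : ℝ} (hα : 0 < α) (hα1 : α ≤ Real.pi) (h0 : 0 ≤ θ) (hπ : θ ≤ Real.pi) :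
    0 ≤ (θ ^ 2 - α ^ 2) * Real.sin α + 2 * α * (Real.cos θ - Real.cos α) := by
  set ψ : ℝ → ℝ := fun θ => (θ ^ 2 - α ^ 2) * Real.sin α + 2 * α * (Real.cos θ - Real.cos α)
    with hψ
  have hd : ∀ θ : ℝ, HasDerivAt ψ (2 * (θ * Real.sin α - α * Real.sin θ)) θ := by
    intro θ
    have h1 : HasDerivAt (fun θ : ℝ => θ ^ 2 - α ^ 2) (2 * θ) θ := by
      simpa using (hasDerivAt_pow 2 θ).sub_const (α ^ 2)
    have h2 : HasDerivAt (fun θ : ℝ => Real.cos θ - Real.cos α) (-Real.sin θ) θ :=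
      (Real.hasDerivAt_cos θ).sub_const _
    have h3 := (h1.mul_const (Real.sin α)).add (h2.const_mul (2 * α))
    refine h3.congr_deriv ?_
    ring
  have hc : Continuous ψ := by
    rw [continuous_iff_continuousAt]
    exact fun θ => (hd θ).continuousAt
  have hψα : ψ α = 0 := by simp [hψ]
  rcases le_total α θ with h | h
  · have hm : MonotoneOn ψ (Icc α Real.pi) := by
      apply monotoneOn_of_deriv_nonneg (convex_Icc _ _) hc.continuousOn
      · exact fun θ _ => (hd θ).differentiableAt.differentiableWithinAt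
      · intro θ hθ
        rw [interior_Icc] at hθ
        rw [(hd θ).deriv]
        have := sin_cross hα hθ.1.le hθ.2.le
        linarith
    have := hm ⟨le_rfl, hα1⟩ ⟨h, hπ⟩ h
    rwa [hψα] at this
  · have hm : AntitoneOn ψ (Icc 0 α) := by
      apply antitoneOn_of_deriv_nonpos (convex_Icc _ _) hc.continuousOn
      · exact fun θ _ => (hd θ).differentiableAt.differentiableWithinAt
      · intro θ hθ
        rw [interior_Icc] at hθ
        rw [(hd θ).deriv]
        have := sin_cross hθ.1 hθ.2.le hα1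
        linarith
    have := hm ⟨h0, h⟩ ⟨hα.le, le_rfl⟩ h
    rwa [hψα] at this

/-- second order Taylor inequality. -/
theorem taylor_le {h h' h'' : ℝ → ℝ} (H : ∀ u, HasDerivAt h (h' u) u)
    (H' : ∀ u, HasDerivAt h' (h'' u) u) (B : ∀ u, |h'' u| ≤ 1 / 4) (u : ℝ) :
    h u ≤ h 0 + h' 0 * u + u ^ 2 / 8 := by
  have hk : Monotone fun u : ℝ => u / 4 - h' u := by
    apply monotone_of_deriv_nonneg
    · intro u
      exact ((hasDerivAt_id u).div_const 4 |>.sub (H' u)).differentiableAt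
    · intro u
      have := ((hasDerivAt_id u).div_const 4 |>.sub (H' u)).deriv
      have h2 : deriv (fun u : ℝ => u / 4 - h' u) u = 1 / 4 - h'' u := this
      rw [h2]
      linarith [(abs_le.mp (B u)).2]
  set g : ℝ → ℝ := fun u => h 0 + h' 0 * u + u ^ 2 / 8 - h u with hg
  have hd : ∀ u, HasDerivAt g (h' 0 + u / 4 - h' u) u := by
    intro u
    have h1 : HasDerivAt (fun u : ℝ => h' 0 * u) (h' 0) u := by
      simpa using (hasDerivAt_id u).const_mul (h' 0)
    have h2 : HasDerivAt (fun u : ℝ => u ^ 2 / 8) (u / 4) u := by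
      have := (hasDerivAt_pow 2 u).div_const 8
      refine this.congr_deriv ?_
      norm_num
      ring
    have h3 := ((h1.const_add (h 0)).add h2).sub (H u)
    exact h3
  have hc : Continuous g := by
    rw [continuous_iff_continuousAt]
    exact fun u => (hd u).continuousAt
  have g0 : g 0 = 0 := by simp [hg]
  suffices 0 ≤ g u by
    simp only [hg] at this
    linarith
  rcases le_total 0 u with hu | hu
  · have hm : MonotoneOn g (Ici 0) := by
      apply monotoneOn_of_deriv_nonneg (convex_Ici _) hc.continuousOn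
      · exact fun θ _ => (hd θ).differentiableAt.differentiableWithinAt
      · intro θ hθ
        rw [interior_Ici] at hθ
        rw [(hd θ).deriv]
        have := hk hθ.le
        simp only at this
        linarith
    have := hm (mem_Ici.mpr le_rfl) (mem_Ici.mpr hu) hu
    rwa [g0] at this
  · have hm : AntitoneOn g (Iic 0) := by
      apply antitoneOn_of_deriv_nonpos (convex_Iic _) hc.continuousOn
      · exact fun θ _ => (hd θ).differentiableAt.differentiableWithinAt
      · intro θ hθ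
        rw [interior_Iic] at hθ
        rw [(hd θ).deriv]
        have := hk hθ.le
        simp only at this
        linarith
    have := hm (mem_Iic.mpr hu) (mem_Iic.mpr le_rfl) hu
    rwa [g0] at this

/-- equality case of the Minkowski inequality in the plane. -/
theorem planar {N j θ₁ θ₂ u₁ u₂ t : ℝ} (hNj : N ^ 2 + j ^ 2 = 1) (hsq₁ : θ₁ ^ 2 + u₁ ^ 2 = t ^ 2)
    (hsq₂ : θ₂ ^ 2 + u₂ ^ 2 = (1 - t) ^ 2) (hsum : θ₁ + θ₂ = N) (husum : u₁ + u₂ = -j)
    (h0 : 0 ≤ t) (h1t : 0 ≤ 1 - t) : θ₁ = t * N ∧ u₁ = -(t * j) := by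
  have hc1 : N * θ₁ - j * u₁ ≤ t := by
    have : (N * θ₁ - j * u₁) ^ 2 ≤ t ^ 2 := by
      have : (N * θ₁ - j * u₁) ^ 2 + (N * u₁ + j * θ₁) ^ 2 = t ^ 2 := by
        have : (N * θ₁ - j * u₁) ^ 2 + (N * u₁ + j * θ₁) ^ 2 =
          (N ^ 2 + j ^ 2) * (θ₁ ^ 2 + u₁ ^ 2) := by ring
        rw [this, hNj, hsq₁, one_mul]
      linarith [sq_nonneg (N * u₁ + j * θ₁)]
    exact abs_le_of_sq_le_sq' this h0 |>.2
  have hc2 : N * θ₂ - j * u₂ ≤ 1 - t := by
    have : (N * θ₂ - j * u₂) ^ 2 ≤ (1 - t) ^ 2 := by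
      have : (N * θ₂ - j * u₂) ^ 2 + (N * u₂ + j * θ₂) ^ 2 = (1 - t) ^ 2 := by
        have : (N * θ₂ - j * u₂) ^ 2 + (N * u₂ + j * θ₂) ^ 2 =
          (N ^ 2 + j ^ 2) * (θ₂ ^ 2 + u₂ ^ 2) := by ring
        rw [this, hNj, hsq₂, one_mul]
      linarith [sq_nonneg (N * u₂ + j * θ₂)]
    exact abs_le_of_sq_le_sq' this h1t |>.2
  have hc3 : (N * θ₁ - j * u₁) + (N * θ₂ - j * u₂) = 1 := by
    have : (N * θ₁ - j * u₁) + (N * θ₂ - j * u₂) = N * (θ₁ + θ₂) - j * (u₁ + u₂) := by ring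
    rw [this, hsum, husum, ← hNj]; ring
  have hc4 : N * θ₁ - j * u₁ = t := by linarith
  have hc5 : (θ₁ - t * N) ^ 2 + (u₁ + t * j) ^ 2 = 0 := by
    have : (θ₁ - t * N) ^ 2 + (u₁ + t * j) ^ 2 =
      (θ₁ ^ 2 + u₁ ^ 2) - 2 * t * (N * θ₁ - j * u₁) + t ^ 2 * (N ^ 2 + j ^ 2) := by ring
    rw [this, hsq₁, hc4, hNj]; ring
  have hc6 : (θ₁ - t * N) ^ 2 = 0 := by linarith [sq_nonneg (θ₁ - t * N), sq_nonneg (u₁ + t * j)]
  have hc7 : (u₁ + t * j) ^ 2 = 0 := by linarith [sq_nonneg (θ₁ - t * N), sq_nonneg (u₁ + t * j)]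
  have hc8 := pow_eq_zero_iff (two_ne_zero) |>.mp hc6
  have hc9 := pow_eq_zero_iff (two_ne_zero) |>.mp hc7
  exact ⟨by linarith, by linarith⟩

variable {a b : ℝ}

theorem norm_point {x v : ℍ[ℝ]} (hx : ‖x‖ = 1) (hv : ‖v‖ = 1)
    (hxv : inner ℝ x v = 0) (α : ℝ) : ‖Real.cos α • x + Real.sin α • v‖ = 1 := by
  have h : ‖Real.cos α • x + Real.sin α • v‖ ^ 2 = 1 := by
    rw [← real_inner_self_eq_norm_sq]
    have hxv' : inner ℝ v x = (0 : ℝ) := by rw [real_inner_comm]; exact hxv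
    have hxx : inner ℝ x x = (1 : ℝ) := by rw [real_inner_self_eq_norm_sq, hx]; norm_num
    have hvv : inner ℝ v v = (1 : ℝ) := by rw [real_inner_self_eq_norm_sq, hv]; norm_num
    simp only [inner_add_left, inner_add_right, real_inner_smul_left, real_inner_smul_right,
      hxv, hxv', hxx, hvv]
    have := Real.sin_sq_add_cos_sq α
    nlinarith
  have h0 := norm_nonneg (Real.cos α • x + Real.sin α • v)
  nlinarith

theorem inner_point_left {x v : ℍ[ℝ]} (hx : ‖x‖ = 1)
    (hxv : inner ℝ x v = 0) (α : ℝ) :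
    inner ℝ x (Real.cos α • x + Real.sin α • v) = Real.cos α := by
  simp only [inner_add_right, real_inner_smul_right, hxv, real_inner_self_eq_norm_sq, hx]
  ring

theorem angle_point {x v : ℍ[ℝ]} (hx : ‖x‖ = 1) (hv : ‖v‖ = 1)
    (hxv : inner ℝ x v = 0) {α : ℝ} (h0 : 0 ≤ α) (hπ : α ≤ Real.pi) :
    InnerProductGeometry.angle x (Real.cos α • x + Real.sin α • v) = α := by
  unfold InnerProductGeometry.angle
  rw [inner_point_left hx hxv, norm_point hx hv hxv, hx]
  simp [Real.arccos_cos h0 hπ]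

/-- The main inequality of block R1. -/
theorem F_ge (hab : |a| + |b| ≤ 1 / 2) {x v : ℍ[ℝ]} (hx : ‖x‖ = 1) (hv : ‖v‖ = 1)
    (hxv : inner ℝ x v = 0) {N j : ℝ} (hN : 0 < N) (hNj : N ^ 2 + j ^ 2 = 1)
    (hj : j = N * inner ℝ v (killing a b x)) {t : ℝ} (h0 : 0 ≤ t) (h1 : t ≤ 1) (w : ℝ) :
    t ^ 2 + w ^ 2 / 2 ≤ InnerProductGeometry.angle x
      (tw (a * w) (b * w) (Real.cos (N * t) • x + Real.sin (N * t) • v)) ^ 2
        + (w - j * t) ^ 2 := by
  have hN1 : N ≤ 1 := by nlinarith [sq_nonneg j]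
  rcases h0.eq_or_lt with rfl | ht
  · simp only [mul_zero, sub_zero]
    nlinarith [sq_nonneg (InnerProductGeometry.angle x (tw (a * w) (b * w)
      (Real.cos 0 • x + Real.sin 0 • v))), sq_nonneg w]
  set α := N * t with hα
  have hα0 : 0 < α := mul_pos hN ht
  have hα1 : α ≤ 1 := by nlinarith
  have hπ : α < Real.pi := lt_of_le_of_lt hα1 (by linarith [Real.pi_gt_three])
  set γ := Real.cos α • x + Real.sin α • v with hγ
  have hγ1 : ‖γ‖ = 1 := norm_point hx hv hxv α
  set κ : ℝ := inner ℝ v (killing a b x) with hκ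
  -- Taylor expansion of the inner product
  set h : ℝ → ℝ := fun u => inner ℝ x (tw (a * u) (b * u) γ) with hh
  have H : ∀ u, HasDerivAt h (-inner ℝ (killing a b x) (tw (a * u) (b * u) γ)) u := by
    intro u
    have h1 := (hasDerivAt_const u x).inner ℝ (hasDerivAt_tw (a := a) (b := b) γ u)
    have h2 : HasDerivAt h (inner ℝ x (killing a b (tw (a * u) (b * u) γ)) +
        inner ℝ (0 : ℍ[ℝ]) (tw (a * u) (b * u) γ)) u := h1
    rw [inner_zero_left, add_zero] at h2
    have h3 := inner_killing (a := a) (b := b) x (tw (a * u) (b * u) γ)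
    rw [h3, neg_neg]
    exact h2
  have H' : ∀ u, HasDerivAt (fun u => -inner ℝ (killing a b x) (tw (a * u) (b * u) γ))
      (inner ℝ (killing a b (killing a b x)) (tw (a * u) (b * u) γ)) u := by
    intro u
    have h1 := ((hasDerivAt_const u (killing a b x)).inner ℝ
      (hasDerivAt_tw (a := a) (b := b) γ u)).neg
    have h2 : HasDerivAt (fun u => -inner ℝ (killing a b x) (tw (a * u) (b * u) γ))
      (-(inner ℝ (killing a b x) (killing a b (tw (a * u) (b * u) γ)) +
        inner ℝ (0 : ℍ[ℝ]) (tw (a * u) (b * u) γ))) u := h1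
    rw [inner_zero_left, add_zero] at h2
    have h3 := inner_killing (a := a) (b := b) (killing a b x) (tw (a * u) (b * u) γ)
    rw [h3]
    exact h2
  have hB : ∀ u, |(inner ℝ (killing a b (killing a b x)) (tw (a * u) (b * u) γ) : ℝ)| ≤ 1 / 4 := by
    intro u
    have h1 := abs_real_inner_le_norm (killing a b (killing a b x)) (tw (a * u) (b * u) γ)
    rw [norm_tw, hγ1, mul_one] at h1
    have h2 := norm_killing_le (a := a) (b := b) (killing a b x)
    have h3 := norm_killing_le (a := a) (b := b) x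
    rw [hx, mul_one] at h3
    have h4 : 0 ≤ |a| + |b| := by positivity
    have h5 : (|a| + |b|) * ‖killing a b x‖ ≤ (1 / 2) * (1 / 2) :=
      mul_le_mul hab (h3.trans hab) (norm_nonneg _) (by norm_num)
    linarith
  have hT := taylor_le H H' hB w
  simp only [mul_zero, tw_zero] at hT
  have hh0 : h 0 = Real.cos α := by
    simp only [hh, mul_zero, tw_zero]
    exact inner_point_left hx hxv α
  have hh'0 : (inner ℝ (killing a b x) γ : ℝ) = Real.sin α * κ := by
    simp only [hγ, inner_add_right, real_inner_smul_right]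
    have e1 : inner ℝ (killing a b x) x = (0 : ℝ) := by
      rw [real_inner_comm]; exact inner_killing_self x
    have e2 : inner ℝ (killing a b x) v = κ := by rw [real_inner_comm]
    rw [e1, e2]
    ring
  rw [hh0, hh'0] at hT
  -- the angle
  set θ := InnerProductGeometry.angle x (tw (a * w) (b * w) γ) with hθ
  have hcos : Real.cos θ = h w := by
    have := InnerProductGeometry.cos_angle x (tw (a * w) (b * w) γ)
    rw [norm_tw, hγ1, hx] at this
    simpa [hh] using this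
  have hθ0 : 0 ≤ θ := InnerProductGeometry.angle_nonneg _ _
  have hθπ : θ ≤ Real.pi := InnerProductGeometry.angle_le_pi _ _
  have hsin : 0 < Real.sin α := Real.sin_pos_of_pos_of_lt_pi hα0 hπ
  have htan := tangent hα0 hπ.le hθ0 hθπ
  rw [hcos] at htan
  have hsin2 : α ≤ 2 * Real.sin α := by
    have h2 := Real.mul_le_sin hα0.le (by linarith [Real.pi_gt_three])
    have h3 : 1 / 2 ≤ 2 / Real.pi := by
      rw [div_le_div_iff₀ (by norm_num) Real.pi_pos]
      linarith [Real.pi_le_four]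
    have : 1 / 2 * α ≤ Real.sin α := (mul_le_mul_of_nonneg_right h3 hα0.le).trans h2
    linarith
  -- ακ = j t
  have hακ : α * κ = j * t := by rw [hα, hj]; ring
  have hα2 : α ^ 2 + (j * t) ^ 2 = t ^ 2 := by
    have : α ^ 2 + (j * t) ^ 2 = (N ^ 2 + j ^ 2) * t ^ 2 := by rw [hα]; ring
    rw [this, hNj, one_mul]
  -- conclude, multiply by sin α
  have hmul : (t ^ 2 + w ^ 2 / 2) * Real.sin α ≤ (θ ^ 2 + (w - j * t) ^ 2) * Real.sin α := by
    have e1 : α ^ 2 * Real.sin α - 2 * α * (h w - Real.cos α) ≤ θ ^ 2 * Real.sin α := by linarith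
    have e2 : 2 * α * (h w - Real.cos α) ≤ 2 * α * (-(Real.sin α * κ) * w + w ^ 2 / 8) := by
      apply mul_le_mul_of_nonneg_left _ (by positivity)
      linarith
    have e3 : 2 * α * (-(Real.sin α * κ) * w + w ^ 2 / 8) =
        -2 * (j * t) * w * Real.sin α + α * w ^ 2 / 4 := by
      rw [← hακ]; ring
    have e4 : α * w ^ 2 / 4 ≤ w ^ 2 / 2 * Real.sin α := by nlinarith [sq_nonneg w]
    nlinarith
  exact le_of_mul_le_mul_right hmul hsin

end R12

open R12

variable {a b : ℝ}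

/-- R1 -/
theorem dR_geodesic (hab : |a| + |b| ≤ 1 / 2) {x v : ℍ[ℝ]} (hx : ‖x‖ = 1) (hv : ‖v‖ = 1)
    (hxv : inner ℝ x v = 0) {N j : ℝ} (hN : 0 < N) (hNj : N ^ 2 + j ^ 2 = 1)
    (hj : j = N * inner ℝ v (killing a b x)) {t : ℝ} (h0 : 0 ≤ t) (h1 : t ≤ 1) :
    dR a b x (tw (a * (j * t)) (b * (j * t)) (Real.cos (N * t) • x + Real.sin (N * t) • v)) = t ∧
    ∀ u : ℝ, Real.sqrt (InnerProductGeometry.angle x (tw (a * u) (b * u)
      (tw (a * (j * t)) (b * (j * t)) (Real.cos (N * t) • x + Real.sin (N * t) • v))) ^ 2 + u ^ 2)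
        ≤ t → u = -(j * t) := by
  have hN1 : N ≤ 1 := by nlinarith [sq_nonneg j]
  set γ := Real.cos (N * t) • x + Real.sin (N * t) • v with hγ
  have key : ∀ u : ℝ, t ^ 2 + (u + j * t) ^ 2 / 2 ≤ InnerProductGeometry.angle x (tw (a * u) (b * u)
      (tw (a * (j * t)) (b * (j * t)) γ)) ^ 2 + u ^ 2 := by
    intro u
    have := F_ge hab hx hv hxv hN hNj hj h0 h1 (u + j * t)
    rw [tw_tw]
    have e1 : a * u + a * (j * t) = a * (u + j * t) := by ring
    have e2 : b * u + b * (j * t) = b * (u + j * t) := by ring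
    rw [e1, e2]
    have e3 : u + j * t - j * t = u := by ring
    rw [e3] at this
    exact this
  refine ⟨?_, ?_⟩
  · apply le_antisymm
    · refine (dR_le a b x _ (-(j * t))).trans ?_
      rw [tw_tw]
      have e1 : a * -(j * t) + a * (j * t) = 0 := by ring
      have e2 : b * -(j * t) + b * (j * t) = 0 := by ring
      rw [e1, e2, tw_zero, angle_point hx hv hxv (by positivity)
        (by nlinarith [Real.pi_gt_three])]
      have : (N * t) ^ 2 + (-(j * t)) ^ 2 = t ^ 2 := by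
        have : (N * t) ^ 2 + (-(j * t)) ^ 2 = (N ^ 2 + j ^ 2) * t ^ 2 := by ring
        rw [this, hNj, one_mul]
      rw [this, Real.sqrt_sq h0]
    · obtain ⟨u, hu⟩ := dR_attained a b x (tw (a * (j * t)) (b * (j * t)) γ)
      rw [hu]
      apply Real.le_sqrt_of_sq_le
      have := key u
      nlinarith [sq_nonneg (u + j * t)]
  · intro u hu
    have h2 := key u
    have h3 : InnerProductGeometry.angle x (tw (a * u) (b * u)
      (tw (a * (j * t)) (b * (j * t)) γ)) ^ 2 + u ^ 2 ≤ t ^ 2 := by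
      have := (Real.sqrt_le_left h0).mp hu
      exact this
    have h4 : (u + j * t) ^ 2 ≤ 0 := by linarith
    have h5 : u + j * t = 0 := by
      have := le_antisymm h4 (sq_nonneg _)
      exact pow_eq_zero_iff (two_ne_zero) |>.mp this
    linarith

/-- R2 -/
theorem dR_unique (hab : |a| + |b| ≤ 1 / 2) {x v : ℍ[ℝ]} (hx : ‖x‖ = 1) (hv : ‖v‖ = 1)
    (hxv : inner ℝ x v = 0) {N j : ℝ} (hN : 0 < N) (hNj : N ^ 2 + j ^ 2 = 1)
    (hj : j = N * inner ℝ v (killing a b x)) {t : ℝ} (h0 : 0 ≤ t) (h1 : t ≤ 1)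
    {z : ℍ[ℝ]} (hz : ‖z‖ = 1) (hz1 : dR a b x z = t)
    (hz2 : dR a b z (tw (a * j) (b * j) (Real.cos N • x + Real.sin N • v)) = 1 - t) :
    z = tw (a * (j * t)) (b * (j * t)) (Real.cos (N * t) • x + Real.sin (N * t) • v) := by
  have hN1 : N ≤ 1 := by nlinarith [sq_nonneg j]
  have hNπ : N < Real.pi := lt_of_le_of_lt hN1 (by linarith [Real.pi_gt_three])
  set γ := Real.cos N • x + Real.sin N • v with hγ
  have hγ1 : ‖γ‖ = 1 := norm_point hx hv hxv N
  obtain ⟨u₁, hu₁⟩ := dR_attained a b x z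
  obtain ⟨u₂, hu₂⟩ := dR_attained a b z (tw (a * j) (b * j) γ)
  rw [hz1] at hu₁
  rw [hz2] at hu₂
  set θ₁ := InnerProductGeometry.angle x (tw (a * u₁) (b * u₁) z) with hθ₁
  set θ₂ := InnerProductGeometry.angle z (tw (a * u₂) (b * u₂) (tw (a * j) (b * j) γ)) with hθ₂
  have hθ₁0 : 0 ≤ θ₁ := InnerProductGeometry.angle_nonneg _ _
  have hθ₂0 : 0 ≤ θ₂ := InnerProductGeometry.angle_nonneg _ _
  have hsq₁ : θ₁ ^ 2 + u₁ ^ 2 = t ^ 2 := by
    rw [hu₁, Real.sq_sqrt (by positivity)]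
  have hsq₂ : θ₂ ^ 2 + u₂ ^ 2 = (1 - t) ^ 2 := by
    rw [hu₂, Real.sq_sqrt (by positivity)]
  have h1t : 0 ≤ 1 - t := by linarith
  -- triangle inequality of the angles
  have htri : InnerProductGeometry.angle x
      (tw (a * (u₁ + u₂)) (b * (u₁ + u₂)) (tw (a * j) (b * j) γ)) ≤ θ₁ + θ₂ := by
    have h2 := InnerProductGeometry.angle_le_angle_add_angle x (tw (a * u₁) (b * u₁) z)
      (tw (a * (u₁ + u₂)) (b * (u₁ + u₂)) (tw (a * j) (b * j) γ))
    have h3 : InnerProductGeometry.angle (tw (a * u₁) (b * u₁) z)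
      (tw (a * (u₁ + u₂)) (b * (u₁ + u₂)) (tw (a * j) (b * j) γ)) = θ₂ := by
      have : tw (a * (u₁ + u₂)) (b * (u₁ + u₂)) (tw (a * j) (b * j) γ) =
        tw (a * u₁) (b * u₁) (tw (a * u₂) (b * u₂) (tw (a * j) (b * j) γ)) := by
        rw [tw_tw (a * u₁), mul_add, mul_add]
      rw [this, angle_tw]
    rw [h3] at h2
    exact h2
  have hmink : (θ₁ + θ₂) ^ 2 + (u₁ + u₂) ^ 2 ≤ 1 := by
    have hcs : θ₁ * θ₂ + u₁ * u₂ ≤ t * (1 - t) := by
      have hcs2 : (θ₁ * θ₂ + u₁ * u₂) ^ 2 ≤ (t * (1 - t)) ^ 2 := by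
        have : (t * (1 - t)) ^ 2 = (θ₁ ^ 2 + u₁ ^ 2) * (θ₂ ^ 2 + u₂ ^ 2) := by
          rw [hsq₁, hsq₂]; ring
        rw [this]
        nlinarith [sq_nonneg (θ₁ * u₂ - θ₂ * u₁)]
      exact abs_le_of_sq_le_sq' hcs2 (by positivity) |>.2
    nlinarith
  have hgeo := dR_geodesic hab hx hv hxv hN hNj hj (t := 1) zero_le_one le_rfl
  rw [mul_one, mul_one, ← hγ] at hgeo
  set θ := InnerProductGeometry.angle x
      (tw (a * (u₁ + u₂)) (b * (u₁ + u₂)) (tw (a * j) (b * j) γ)) with hθ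
  have hθ0 : 0 ≤ θ := InnerProductGeometry.angle_nonneg _ _
  have hθle : θ ^ 2 + (u₁ + u₂) ^ 2 ≤ 1 := by nlinarith
  have husum : u₁ + u₂ = -j := by
    have := hgeo.2 (u₁ + u₂)
    apply this
    rw [← hθ]
    calc Real.sqrt (θ ^ 2 + (u₁ + u₂) ^ 2) ≤ Real.sqrt 1 := Real.sqrt_le_sqrt hθle
      _ = 1 := Real.sqrt_one
  have hθN : θ = N := by
    rw [hθ, husum, tw_tw]
    have e1 : a * -j + a * j = 0 := by ring
    have e2 : b * -j + b * j = 0 := by ring
    rw [e1, e2, tw_zero, hγ, angle_point hx hv hxv hN.le hNπ.le]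
  have hsum : θ₁ + θ₂ = N := by
    apply le_antisymm
    · have h2 : (θ₁ + θ₂) ^ 2 ≤ N ^ 2 := by
        rw [husum] at hmink
        nlinarith
      exact abs_le_of_sq_le_sq' h2 hN.le |>.2
    · rw [← hθN]; exact htri
  -- equality case of the Minkowski inequality
  have hθ₁t : θ₁ = t * N ∧ u₁ = -(t * j) := planar hNj hsq₁ hsq₂ hsum husum h0 h1t
  have hθ₂t : θ₂ = (1 - t) * N := by linarith [hθ₁t.1]
  -- the point z'
  set z' := tw (a * u₁) (b * u₁) z with hz'
  have hz'1 : ‖z'‖ = 1 := by rw [hz', norm_tw, hz]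
  have hi1 : inner ℝ x z' = Real.cos (t * N) := by
    have := InnerProductGeometry.cos_angle x z'
    rw [hz'1, hx, ← hθ₁, hθ₁t.1] at this
    simpa using this.symm
  have hγeq : tw (a * u₁) (b * u₁) (tw (a * u₂) (b * u₂) (tw (a * j) (b * j) γ)) = γ := by
    rw [tw_tw (a * u₂), tw_tw (a * u₁)]
    have e1 : a * u₁ + (a * u₂ + a * j) = 0 := by
      have : a * u₁ + (a * u₂ + a * j) = a * (u₁ + u₂ + j) := by ring
      rw [this, husum]; ring
    have e2 : b * u₁ + (b * u₂ + b * j) = 0 := by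
      have : b * u₁ + (b * u₂ + b * j) = b * (u₁ + u₂ + j) := by ring
      rw [this, husum]; ring
    rw [e1, e2]
    exact tw_zero γ
  have hangle2 : InnerProductGeometry.angle z' γ = (1 - t) * N := by
    have e3 : InnerProductGeometry.angle z' γ = InnerProductGeometry.angle z'
      (tw (a * u₁) (b * u₁) (tw (a * u₂) (b * u₂) (tw (a * j) (b * j) γ))) :=
      congrArg _ hγeq.symm
    rw [e3, hz', angle_tw]
    exact hθ₂t
  have hi2 : inner ℝ z' γ = Real.cos ((1 - t) * N) := by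
    have := InnerProductGeometry.cos_angle z' γ
    rw [hz'1, hγ1, hangle2] at this
    simpa using this.symm
  have hsinN : 0 < Real.sin N := Real.sin_pos_of_pos_of_lt_pi hN hNπ
  have hi3 : inner ℝ z' v = Real.sin (t * N) := by
    have e1 : inner ℝ z' γ = Real.cos N * Real.cos (t * N) + Real.sin N * inner ℝ z' v := by
      rw [hγ, inner_add_right, real_inner_smul_right, real_inner_smul_right,
        real_inner_comm, hi1]
    have e2 : Real.cos ((1 - t) * N) =
        Real.cos N * Real.cos (t * N) + Real.sin N * Real.sin (t * N) := by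
      rw [← Real.cos_sub]; congr 1; ring
    rw [hi2, e2] at e1
    have e3 : Real.sin N * Real.sin (t * N) = Real.sin N * inner ℝ z' v := by linarith
    exact (mul_left_cancel₀ hsinN.ne' e3).symm
  have hz'eq : z' = Real.cos (N * t) • x + Real.sin (N * t) • v := by
    rw [← sub_eq_zero, ← norm_eq_zero, ← pow_eq_zero_iff (two_ne_zero), ←
      real_inner_self_eq_norm_sq]
    have hxv' : inner ℝ v x = (0 : ℝ) := by rw [real_inner_comm]; exact hxv
    have hi1' : inner ℝ z' x = Real.cos (t * N) := by rw [real_inner_comm]; exact hi1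
    have hi3' : inner ℝ v z' = Real.sin (t * N) := by rw [real_inner_comm]; exact hi3
    have hxx : inner ℝ x x = (1 : ℝ) := by rw [real_inner_self_eq_norm_sq, hx]; norm_num
    have hvv : inner ℝ v v = (1 : ℝ) := by rw [real_inner_self_eq_norm_sq, hv]; norm_num
    have hzz : inner ℝ z' z' = (1 : ℝ) := by rw [real_inner_self_eq_norm_sq, hz'1]; norm_num
    simp only [inner_add_left, inner_add_right, inner_sub_left, inner_sub_right,
      real_inner_smul_left, real_inner_smul_right, hxv, hxv', hi1, hi1', hi3, hi3',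
      hxx, hvv, hzz]
    rw [mul_comm t N]
    have hsc := Real.sin_sq_add_cos_sq (N * t)
    linear_combination (-1 : ℝ) * hsc
  have hzz : z = tw (a * -u₁) (b * -u₁) z' := by
    rw [hz', tw_tw]
    have e1 : a * -u₁ + a * u₁ = 0 := by ring
    have e2 : b * -u₁ + b * u₁ = 0 := by ring
    rw [e1, e2, tw_zero]
  rw [hzz, hz'eq, hθ₁t.2]
  congr 1
  · ring
  · ring

end Helper99.BQ
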